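import Pool.Agent.Work.MP_e3f5d9_al_helper94.AL3
import Pool.Agent.Work.MP_e3f5d9_al_helper21.AL2

/-!
# The alpha lemma

Combinatorial part: helper21 (`AL2`); asymptotic part: helper94 (`AL3`).
-/

set_option autoImplicit false

namespace R4.Al

/-- The alpha lemma holds for all moduli. -/
theorem alphaLemma (q : ℕ) [NeZero q] : AlphaLemma q :=
  helper94.alphaLemma_of_comb (alComb q)

end R4.Al
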