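import Pool.Agent.Work.MP_e3f5d9_al.AL1

/-!
# The alpha lemma: asymptotic part (helper94)

`AlComb q → AlphaLemma q`: growth rate, minimal number of steps, large near-minimal sets.
-/

set_option autoImplicit false
set_option linter.unusedSectionVars false

namespace R4.Al.helper94

open Finset R4.Al Filter

variable {q : ℕ} [NeZero q]

/-! ### Basics -/

lemma good_mono {C k k' : ℕ} (h : k ≤ k') {w : Wd q} (hw : Good C k' w) : Good C k w :=
  fun u hu => hw u (hu.trans h)

lemma good_kid {C k : ℕ} {w : Wd q} (hw : Good C (k + 1) w) (b : Bool) : Good C k (kid b w) :=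
  fun u hu => hw (b :: u) (by simpa using hu)

lemma fin_good (C k n : ℕ) : {w : Wd q | w.length ≤ n ∧ Good C k w}.Finite :=
  (List.finite_length_le (ZMod q) n).subset fun _ hw => hw.1

/-- The good words of length at most `n`. -/
noncomputable def GG (q : ℕ) [NeZero q] (C k n : ℕ) : Finset (Wd q) := (fin_good C k n).toFinset

lemma mem_GG {C k n : ℕ} {w : Wd q} : w ∈ GG q C k n ↔ w.length ≤ n ∧ Good C k w := by
  unfold GG
  rw [Set.Finite.mem_toFinset]
  exact Iff.rfl

lemma GG_mono {C k k' n n' : ℕ} (hk : k ≤ k') (hn : n ≤ n') : GG q C k' n ⊆ GG q C k n' := by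
  intro w hw
  rw [mem_GG] at hw ⊢
  exact ⟨hw.1.trans hn, good_mono hk hw.2⟩

lemma ncard_GG (C k n : ℕ) :
    Set.ncard {w : List (ZMod q) | w.length ≤ n ∧ Good C k w} = (GG q C k n).card :=
  Set.ncard_eq_toFinset_card _ (fin_good C k n)

lemma good_nil (C k : ℕ) : Good C k ([] : Wd q) := by
  have h : ∀ u : List Bool, kidL u ([] : Wd q) = [] := by
    intro u
    induction u with
    | nil => rfl
    | cons b u ih =>
      change kidL u (kid b []) = []
      have : kid b ([] : Wd q) = [] := by cases b <;> rfl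
      rw [this]; exact ih
  intro u _
  rw [h]
  intro F hF a b
  have : F = [] := List.infix_nil.1 hF
  rw [this]; simp

lemma one_le_GG (C k n : ℕ) : (1 : ℝ) ≤ (GG q C k n).card := by
  have : 0 < (GG q C k n).card := Finset.card_pos.2 ⟨[], mem_GG.2 ⟨by simp, good_nil C k⟩⟩
  exact_mod_cast this

lemma card_GG_le (C k n : ℕ) : (GG q C k n).card ≤ (q + 1) ^ n := by
  have h1 : (GG q C k n).card ≤ Fintype.card (Fin n → Option (ZMod q)) := by
    rw [← Finset.card_univ]
    apply Finset.card_le_card_of_injOn (fun (w : Wd q) (i : Fin n) => w[(i : ℕ)]?)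
      (fun _ _ => Finset.mem_univ _)
    intro w hw w' hw' h
    rw [mem_coe, mem_GG] at hw hw'
    apply List.ext_getElem?
    intro i
    by_cases hi : i < n
    · exact congrFun h ⟨i, hi⟩
    · rw [List.getElem?_eq_none (by omega), List.getElem?_eq_none (by omega)]
  have h2 : Fintype.card (Fin n → Option (ZMod q)) = (q + 1) ^ n := by
    rw [Fintype.card_fun, Fintype.card_option, ZMod.card, Fintype.card_fin]
  rw [← h2]; exact h1

/-! ### Growth rate -/

/-- `h` is the limit of the growth rates. -/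
structure Rate (q : ℕ) [NeZero q] (C : ℕ) (h : ℝ) : Prop where
  pos : 0 < h
  up : ∀ ε : ℝ, 0 < ε → ∃ (k : ℕ) (K : ℝ), 1 ≤ K ∧ ∀ k' ≥ k, ∀ n : ℕ,
    ((GG q C k' n).card : ℝ) ≤ K * Real.exp ((h + ε) * n)
  lo : ∀ ε : ℝ, 0 < ε → ∀ k n₀ : ℕ, ∃ n ≥ n₀, Real.exp ((h - ε) * n) ≤ ((GG q C k n).card : ℝ)

lemma exists_rate {C : ℕ} {ε₀ : ℝ} (hε₀ : 0 < ε₀)
    (hno : ∀ (k : ℕ) (K : ℝ), ∃ n : ℕ, K * Real.exp (ε₀ * n) < (GG q C k n).card) :
    ∃ h, Rate q C h := by
  set H : Set ℝ := {h | 0 ≤ h ∧ ∃ k, ∀ ε : ℝ, 0 < ε → ∃ K : ℝ, ∀ n : ℕ,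
    ((GG q C k n).card : ℝ) ≤ K * Real.exp ((h + ε) * n)} with hH
  have hne : H.Nonempty := by
    refine ⟨Real.log (q + 1), Real.log_nonneg (by have : (0:ℝ) ≤ q := Nat.cast_nonneg _
                                                  linarith), 0, fun ε hε => ⟨1, fun n => ?_⟩⟩
    have h1 : ((GG q C 0 n).card : ℝ) ≤ ((q : ℝ) + 1) ^ n := by exact_mod_cast card_GG_le C 0 n
    have h2 : ((q : ℝ) + 1) ^ n = Real.exp (Real.log (q + 1) * n) := by
      rw [mul_comm, Real.exp_nat_mul, Real.exp_log (by positivity)]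
    rw [one_mul]
    refine h1.trans (h2.le.trans (Real.exp_le_exp.2 ?_))
    have : (0 : ℝ) ≤ n := Nat.cast_nonneg _
    nlinarith
  have hbd : BddBelow H := ⟨0, fun h hh => hh.1⟩
  have h0 : 0 ≤ sInf H := le_csInf hne fun h hh => hh.1
  have hup : ∀ ε : ℝ, 0 < ε → ∃ (k : ℕ) (K : ℝ), 1 ≤ K ∧ ∀ k' ≥ k, ∀ n : ℕ,
      ((GG q C k' n).card : ℝ) ≤ K * Real.exp ((sInf H + ε) * n) := by
    intro ε hε
    obtain ⟨h', hh', hlt⟩ := exists_lt_of_csInf_lt hne (show sInf H < sInf H + ε / 2 by linarith)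
    obtain ⟨-, k, hk⟩ := hh'
    obtain ⟨K, hK⟩ := hk (ε / 2) (by linarith)
    refine ⟨k, max K 1, le_max_right _ _, fun k' hk' n => ?_⟩
    have h1 : ((GG q C k' n).card : ℝ) ≤ (GG q C k n).card := by
      exact_mod_cast Finset.card_le_card (GG_mono hk' le_rfl)
    refine h1.trans ((hK n).trans ?_)
    have hn : (0 : ℝ) ≤ n := Nat.cast_nonneg _
    have h2 : Real.exp ((h' + ε / 2) * n) ≤ Real.exp ((sInf H + ε) * n) :=
      Real.exp_le_exp.2 (mul_le_mul_of_nonneg_right (by linarith) hn)
    calc K * Real.exp ((h' + ε / 2) * n) ≤ max K 1 * Real.exp ((h' + ε / 2) * n) :=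
          mul_le_mul_of_nonneg_right (le_max_left _ _) (Real.exp_pos _).le
      _ ≤ max K 1 * Real.exp ((sInf H + ε) * n) :=
          mul_le_mul_of_nonneg_left h2 (le_trans zero_le_one (le_max_right _ _))
  have hpos : 0 < sInf H := by
    rcases h0.lt_or_eq with h | h
    · exact h
    · exfalso
      obtain ⟨k, K, -, hK⟩ := hup ε₀ hε₀
      obtain ⟨n, hn⟩ := hno k K
      have := hK k le_rfl n
      rw [← h, zero_add] at this
      linarith
  refine ⟨sInf H, hpos, hup, ?_⟩
  intro ε hε k n₀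
  by_contra hcon
  push Not at hcon
  by_cases hεh : sInf H < ε
  · have h1 := hcon n₀ le_rfl
    have h2 := one_le_GG (q := q) C k n₀
    have h3 : Real.exp ((sInf H - ε) * n₀) ≤ 1 := by
      rw [Real.exp_le_one_iff]
      have : (0 : ℝ) ≤ n₀ := Nat.cast_nonneg _
      nlinarith
    linarith
  · push Not at hεh
    have hmem : sInf H - ε ∈ H := by
      refine ⟨by linarith, k, fun ε' hε' => ⟨(GG q C k n₀).card, fun n => ?_⟩⟩
      have hn : (0 : ℝ) ≤ n := Nat.cast_nonneg _
      have hG := one_le_GG (q := q) C k n₀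
      have hexp : 1 ≤ Real.exp ((sInf H - ε + ε') * n) := by
        exact Real.one_le_exp (mul_nonneg (by linarith) hn)
      by_cases hnn : n₀ ≤ n
      · have h1 := (hcon n hnn).le
        have h2 : Real.exp ((sInf H - ε) * n) ≤ Real.exp ((sInf H - ε + ε') * n) :=
          Real.exp_le_exp.2 (mul_le_mul_of_nonneg_right (by linarith) hn)
        have h3 := Real.exp_pos ((sInf H - ε + ε') * n)
        nlinarith
      · push Not at hnn
        have h1 : ((GG q C k n).card : ℝ) ≤ (GG q C k n₀).card := by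
          exact_mod_cast Finset.card_le_card (GG_mono le_rfl hnn.le)
        nlinarith
    have := csInf_le hbd hmem
    linarith

/-! ### Minimal number of steps -/

/-- `σ` is the asymptotic minimal number of steps (divided by `n`) of large sets. -/
structure Sig (q : ℕ) [NeZero q] (C : ℕ) (h σ : ℝ) : Prop where
  nn : 0 ≤ σ
  lo : ∀ e : ℝ, 0 < e → ∃ (d : ℝ) (k n₀ : ℕ), 0 < d ∧ ∀ n ≥ n₀, ∀ S ⊆ GG q C k n,
    Real.exp ((h - d) * n) ≤ (S.card : ℝ) → (σ - e) * n ≤ ((steps S).card : ℝ)
  up : ∀ e : ℝ, 0 < e → ∀ d : ℝ, 0 < d → ∀ k n₀ : ℕ, ∃ n ≥ n₀, ∃ S ⊆ GG q C k n,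
    Real.exp ((h - d) * n) ≤ (S.card : ℝ) ∧ ((steps S).card : ℝ) ≤ (σ + e) * n

lemma exists_sig (hA : AlComb q) {C : ℕ} {h : ℝ} (hh : Rate q C h) : ∃ σ, Sig q C h σ := by
  obtain ⟨D, hD⟩ := hA.lin C
  set H : Set ℝ := {σ | 0 ≤ σ ∧ ∃ (d : ℝ) (k n₀ : ℕ), 0 < d ∧ ∀ n ≥ n₀, ∀ S ⊆ GG q C k n,
    Real.exp ((h - d) * n) ≤ (S.card : ℝ) → σ * n ≤ ((steps S).card : ℝ)} with hH
  have hne : (0 : ℝ) ∈ H := ⟨le_rfl, 1, 0, 0, one_pos, fun n _ S _ _ => by
    rw [zero_mul]; exact Nat.cast_nonneg _⟩
  have hbd : BddAbove H := by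
    refine ⟨2 * D, ?_⟩
    rintro σ ⟨-, d, k, n₀, hd, hσ⟩
    obtain ⟨n, hn, hn2⟩ := hh.lo d hd k (max n₀ 1)
    have h1 := hσ n ((le_max_left _ _).trans hn) (GG q C k n) subset_rfl hn2
    have h2 := hD n (GG q C k n) (fun w hw => by
      rw [mem_GG] at hw
      exact ⟨hw.1, good_mono (Nat.zero_le _) hw.2⟩)
    have h3 : ((steps (GG q C k n)).card : ℝ) ≤ D * (n + 1) := by exact_mod_cast h2
    have hn1 : (1 : ℝ) ≤ n := by exact_mod_cast (le_max_right _ _).trans hn
    have hD0 : (0 : ℝ) ≤ D := Nat.cast_nonneg _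
    have h4 : σ * n ≤ 2 * D * n := by nlinarith
    exact le_of_mul_le_mul_right h4 (by linarith)
  refine ⟨sSup H, le_csSup hbd hne, ?_, ?_⟩
  · intro e he
    obtain ⟨σ, hσ, hlt⟩ := exists_lt_of_lt_csSup ⟨0, hne⟩ (show sSup H - e < sSup H by linarith)
    obtain ⟨-, d, k, n₀, hd, h1⟩ := hσ
    refine ⟨d, k, n₀, hd, fun n hn S hS hc => ?_⟩
    have hn0 : (0 : ℝ) ≤ n := Nat.cast_nonneg _
    exact (mul_le_mul_of_nonneg_right hlt.le hn0).trans (h1 n hn S hS hc)
  · intro e he d hd k n₀
    by_contra hcon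
    push Not at hcon
    have hmem : sSup H + e ∈ H := by
      refine ⟨?_, d, k, n₀, hd, fun n hn S hS hc => (hcon n hn S hS hc).le⟩
      have := le_csSup hbd hne
      linarith
    have := le_csSup hbd hmem
    linarith

/-! ### Monochromatic large subsets -/

/-- Every large near-minimal set has a large subset on which `r` holds. -/
def Mono (q : ℕ) [NeZero q] (C : ℕ) (h σ : ℝ) (r : Wd q → Wd q → Prop) : Prop :=
  ∀ d' : ℝ, 0 < d' → ∃ (d e : ℝ) (k : ℕ), 0 < d ∧ 0 < e ∧ ∀ᶠ n : ℕ in atTop, ∀ S ⊆ GG q C k n,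
    Real.exp ((h - d) * n) ≤ (S.card : ℝ) → ((steps S).card : ℝ) ≤ (σ + e) * n →
    ∃ S' ⊆ S, Real.exp ((h - d') * n) ≤ (S'.card : ℝ) ∧ ∀ w ∈ S', ∀ w' ∈ S', r w w'

lemma steps_mono {S T : Finset (Wd q)} (h : S ⊆ T) : steps S ⊆ steps T :=
  Finset.biUnion_subset_biUnion_of_subset_left _ h

lemma exp_anti {h d d' : ℝ} (hd : d ≤ d') (n : ℕ) :
    Real.exp ((h - d') * n) ≤ Real.exp ((h - d) * n) :=
  Real.exp_le_exp.2 (mul_le_mul_of_nonneg_right (by linarith) (Nat.cast_nonneg _))

lemma Mono.and {C : ℕ} {h σ : ℝ} {r r' : Wd q → Wd q → Prop} (h1 : Mono q C h σ r)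
    (h2 : Mono q C h σ r') : Mono q C h σ fun w w' => r w w' ∧ r' w w' := by
  intro d' hd'
  obtain ⟨d2, e2, k2, hd2, he2, H2⟩ := h2 d' hd'
  obtain ⟨d1, e1, k1, hd1, he1, H1⟩ := h1 (min d' d2) (lt_min hd' hd2)
  refine ⟨d1, min e1 e2, max k1 k2, hd1, lt_min he1 he2, ?_⟩
  filter_upwards [H1, H2] with n H1 H2 S hS hc hs
  have hn0 : (0 : ℝ) ≤ n := Nat.cast_nonneg _
  obtain ⟨S1, hS1, hc1, hr1⟩ := H1 S (hS.trans (GG_mono (le_max_left _ _) le_rfl)) hc
    (hs.trans (mul_le_mul_of_nonneg_right (by have := min_le_left e1 e2; linarith) hn0))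
  have hss : ((steps S1).card : ℝ) ≤ (steps S).card := by
    exact_mod_cast Finset.card_le_card (steps_mono hS1)
  obtain ⟨S2, hS2, hc2, hr2⟩ := H2 S1 ((hS1.trans hS).trans (GG_mono (le_max_right _ _) le_rfl))
    ((exp_anti (min_le_right _ _) n).trans hc1)
    (hss.trans (hs.trans (mul_le_mul_of_nonneg_right
      (by have := min_le_right e1 e2; linarith) hn0)))
  exact ⟨S2, hS2.trans hS1, hc2, fun w hw w' hw' => ⟨hr1 w (hS2 hw) w' (hS2 hw'),
    hr2 w hw w' hw'⟩⟩

lemma Mono.imp {C : ℕ} {h σ : ℝ} {r r' : Wd q → Wd q → Prop} (h1 : Mono q C h σ r)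
    (h2 : ∀ w w', r w w' → r' w w') : Mono q C h σ r' := by
  intro d' hd'
  obtain ⟨d1, e1, k1, hd1, he1, H1⟩ := h1 d' hd'
  refine ⟨d1, e1, k1, hd1, he1, ?_⟩
  filter_upwards [H1] with n H1 S hS hc hs
  obtain ⟨S1, hS1, hc1, hr1⟩ := H1 S hS hc hs
  exact ⟨S1, hS1, hc1, fun w hw w' hw' => h2 _ _ (hr1 w hw w' hw')⟩

lemma mono_true {C : ℕ} {h σ : ℝ} : Mono q C h σ fun _ _ => True := by
  intro d' hd'
  refine ⟨d', 1, 0, hd', one_pos, Eventually.of_forall fun n S _ hc _ => ⟨S, subset_rfl, hc,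
    fun _ _ _ _ => trivial⟩⟩

/-- Eventually a smaller exponential wins. -/
lemma evl {a b : ℝ} (hab : a < b) (K : ℝ) :
    ∀ᶠ n : ℕ in atTop, K * Real.exp (a * n) ≤ Real.exp (b * n) := by
  have h1 : Tendsto (fun n : ℕ => Real.exp ((b - a) * n)) atTop atTop :=
    Real.tendsto_exp_atTop.comp (tendsto_natCast_atTop_atTop.const_mul_atTop (by linarith))
  filter_upwards [h1.eventually_ge_atTop K] with n hn
  have h2 : Real.exp (b * n) = Real.exp ((b - a) * n) * Real.exp (a * n) := by
    rw [← Real.exp_add]; ring_nf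
  rw [h2]
  exact mul_le_mul_of_nonneg_right hn (Real.exp_pos _).le

/-! ### Fibres -/

section fib
variable (hA : AlComb q)
include hA

lemma pair_inj (b : Bool) {w w' : Wd q} (h1 : kid b w = kid b w')
    (h2 : kid (!b) w = kid (!b) w') : w = w' := by
  apply hA.inj
  intro b'
  cases b <;> cases b' <;> simpa using ‹_›

lemma card_fib (b : Bool) (S : Finset (Wd q)) (v : Wd q) :
    (fib b S v).card = (S.filter fun w => kid (!b) w = v).card := by
  unfold fib
  apply Finset.card_image_of_injOn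
  intro w hw w' hw' h
  rw [mem_coe, mem_filter] at hw hw'
  exact pair_inj hA b h (hw.2.trans hw'.2.symm)

lemma sum_fib (b : Bool) (S : Finset (Wd q)) :
    ∑ v ∈ S.image (kid (!b)), (fib b S v).card = S.card := by
  rw [Finset.card_eq_sum_card_image (kid (!b)) S]
  exact Finset.sum_congr rfl fun v _ => card_fib hA b S v

/-- A large fibre. -/
lemma exists_fib (b : Bool) {S : Finset (Wd q)} (hS : S.Nonempty) :
    ∃ v, S.card ≤ (S.image (kid (!b))).card * (fib b S v).card := by
  by_contra hcon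
  push Not at hcon
  have h1 := sum_fib hA b S
  have hne : (S.image (kid (!b))).Nonempty := hS.image _
  have h2 : (S.image (kid (!b))).card * S.card <
      (S.image (kid (!b))).card * S.card := by
    calc (S.image (kid (!b))).card * S.card
        = ∑ v ∈ S.image (kid (!b)), (S.image (kid (!b))).card * (fib b S v).card := by
          rw [← Finset.mul_sum, h1]
      _ < ∑ v ∈ S.image (kid (!b)), S.card := Finset.sum_lt_sum_of_nonempty hne fun v _ => hcon v
      _ = (S.image (kid (!b))).card * S.card := by rw [Finset.sum_const, smul_eq_mul]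
  exact lt_irrefl _ h2

/-- A fibre which contains the child of many words. -/
lemma exists_fib2 (b : Bool) {S : Finset (Wd q)} (hS : S.Nonempty) :
    ∃ v, S.card ^ 2 ≤ (S.image (kid b)).card * (S.image (kid (!b))).card *
      (S.filter fun w => kid b w ∈ fib b S v).card := by
  set X := S.image (kid b) with hX
  set Y := S.image (kid (!b)) with hY
  have hYne : Y.Nonempty := hS.image _
  -- number of fibres containing `x`
  have hr : ∀ x, (Y.filter fun v => x ∈ fib b S v).card = (S.filter fun w => kid b w = x).card := by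
    intro x
    have h1 : (Y.filter fun v => x ∈ fib b S v) =
        (S.filter fun w => kid b w = x).image (kid (!b)) := by
      ext v
      simp only [mem_filter, hY]
      unfold fib
      simp only [mem_filter, mem_image]
      constructor
      · rintro ⟨-, w, ⟨hw, h1⟩, h2⟩
        exact ⟨w, ⟨hw, h2⟩, h1⟩
      · rintro ⟨w, ⟨hw, h1⟩, h2⟩
        exact ⟨⟨w, hw, h2⟩, w, ⟨hw, h2⟩, h1⟩
    rw [h1]
    apply Finset.card_image_of_injOn
    intro w hw w' hw' h
    rw [mem_coe, mem_filter] at hw hw'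
    exact pair_inj hA b (hw.2.trans hw'.2.symm) h
  have h1 : ∑ v ∈ Y, (S.filter fun w => kid b w ∈ fib b S v).card =
      ∑ x ∈ X, (S.filter fun w => kid b w = x).card ^ 2 := by
    calc ∑ v ∈ Y, (S.filter fun w => kid b w ∈ fib b S v).card
        = ∑ w ∈ S, (Y.filter fun v => kid b w ∈ fib b S v).card := by
          simp only [Finset.card_filter]
          exact Finset.sum_comm
      _ = ∑ w ∈ S, (S.filter fun w' => kid b w' = kid b w).card :=
          Finset.sum_congr rfl fun w _ => hr (kid b w)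
      _ = ∑ x ∈ X, ∑ w ∈ S.filter (fun w => kid b w = x),
            (S.filter fun w' => kid b w' = kid b w).card := by
          rw [Finset.sum_fiberwise_of_maps_to]
          intro w hw
          exact Finset.mem_image_of_mem _ hw
      _ = ∑ x ∈ X, (S.filter fun w => kid b w = x).card ^ 2 := by
          refine Finset.sum_congr rfl fun x _ => ?_
          rw [Finset.sum_congr rfl (g := fun _ => (S.filter fun w => kid b w = x).card),
            Finset.sum_const, smul_eq_mul, sq]
          intro w hw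
          rw [(mem_filter.1 hw).2]
  have h2 : S.card = ∑ x ∈ X, (S.filter fun w => kid b w = x).card :=
    Finset.card_eq_sum_card_image _ _
  have h3 : S.card ^ 2 ≤ X.card * ∑ v ∈ Y, (S.filter fun w => kid b w ∈ fib b S v).card := by
    rw [h1]
    nth_rw 1 [h2]
    exact sq_sum_le_card_mul_sum_sq
  by_contra hcon
  push Not at hcon
  have h4 : Y.card * S.card ^ 2 < Y.card * S.card ^ 2 := by
    calc Y.card * S.card ^ 2
        ≤ Y.card * (X.card * ∑ v ∈ Y, (S.filter fun w => kid b w ∈ fib b S v).card) :=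
          Nat.mul_le_mul_left _ h3
      _ = ∑ v ∈ Y, X.card * Y.card * (S.filter fun w => kid b w ∈ fib b S v).card := by
          rw [← Finset.mul_sum]; ring
      _ < ∑ v ∈ Y, S.card ^ 2 := Finset.sum_lt_sum_of_nonempty hYne fun v _ => hcon v
      _ = Y.card * S.card ^ 2 := by rw [Finset.sum_const, smul_eq_mul]
  exact lt_irrefl _ h4

lemma two' (b : Bool) (S : Finset (Wd q)) (u v : Wd q) :
    (steps (fib b S v)).card + (steps (fib (!b) S u)).card ≤ (steps S).card := by
  cases b
  · have := hA.two S v u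
    simpa [add_comm] using this
  · exact hA.two S u v

end fib

/-! ### The setup -/

/-- A length bound for the children of words of length at most `n`. -/
def md (c n : ℕ) : ℕ := (n + (c + 1)) / 2

lemma le_md (c n : ℕ) : n ≤ 2 * md c n := by unfold md; omega

lemma md_le (c n : ℕ) : 2 * md c n ≤ n + (c + 1) := by unfold md; omega

lemma tendsto_md (c : ℕ) : Tendsto (fun n => md c n) atTop atTop := by
  refine tendsto_atTop_mono (f := fun n => n / 2) (fun n => ?_) (Nat.tendsto_div_const_atTop two_ne_zero)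
  unfold md; omega

/-- The length bound. -/
def Len (q : ℕ) [NeZero q] (C c : ℕ) : Prop := ∀ (w : Wd q) (b : Bool), Good C 1 w →
    2 * (kid b w).length ≤ w.length + c

lemma kid_GG {C c : ℕ} (hc : Len q C c) {k n : ℕ} {w : Wd q} (hw : w ∈ GG q C (k + 1) n)
    (b : Bool) : kid b w ∈ GG q C k (md c n) := by
  rw [mem_GG] at hw ⊢
  refine ⟨?_, good_kid hw.2 b⟩
  have := hc w b (good_mono (by omega) hw.2)
  unfold md; omega

lemma fib_GG {C c : ℕ} (hc : Len q C c) {k n : ℕ} {S : Finset (Wd q)} (hS : S ⊆ GG q C (k + 1) n)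
    (b : Bool) (v : Wd q) : fib b S v ⊆ GG q C k (md c n) := by
  intro x hx
  unfold fib at hx
  simp only [mem_image, mem_filter] at hx
  obtain ⟨w, ⟨hw, -⟩, rfl⟩ := hx
  exact kid_GG hc (hS hw) b

lemma image_GG {C c : ℕ} (hc : Len q C c) {k n : ℕ} {S : Finset (Wd q)}
    (hS : S ⊆ GG q C (k + 1) n) (b : Bool) : S.image (kid b) ⊆ GG q C k (md c n) := by
  intro x hx
  simp only [mem_image] at hx
  obtain ⟨w, hw, rfl⟩ := hx
  exact kid_GG hc (hS hw) b

lemma exp_md {a : ℝ} (ha : 0 ≤ a) (c n : ℕ) :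
    Real.exp (a * n) ≤ Real.exp (2 * a * md c n) := by
  apply Real.exp_le_exp.2
  have h1 : (n : ℝ) ≤ 2 * md c n := by exact_mod_cast le_md c n
  nlinarith

lemma setup (hA : AlComb q) {C c : ℕ} {h : ℝ} (hc : Len q C c) (hh : Rate q C h) {η : ℝ}
    (hη : 0 < η) : ∃ (d : ℝ) (k : ℕ), 0 < d ∧ ∀ᶠ n : ℕ in atTop, ∀ S ⊆ GG q C (k + 1) n,
      Real.exp ((h - d) * n) ≤ (S.card : ℝ) → ∀ b : Bool,
      ((S.image (kid b)).card : ℝ) ≤ Real.exp ((h + η) * md c n) ∧
      (∃ u, Real.exp ((h - η) * md c n) ≤ ((fib b S u).card : ℝ)) ∧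
      (∃ v, Real.exp ((2 * h - η) * md c n) ≤
        ((S.filter fun w => kid b w ∈ fib b S v).card : ℝ)) := by
  have hhp := hh.pos
  set ε : ℝ := min (η / 8) (h / 2) with hε
  have hε0 : 0 < ε := lt_min (by linarith) (by linarith)
  have hε1 : ε ≤ η / 8 := min_le_left _ _
  have hε2 : ε ≤ h / 2 := min_le_right _ _
  obtain ⟨k, K, hK1, hK⟩ := hh.up ε hε0
  refine ⟨ε, k, hε0, ?_⟩
  set K2 : ℝ := Real.exp (h * (c + 1)) with hK2
  have hK2p : 0 < K2 := Real.exp_pos _
  have e1 := (tendsto_md c).eventually (evl (show h + ε < h + η by linarith) K)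
  have e2 := (tendsto_md c).eventually (evl (show h - η + (h + ε) < 2 * (h - ε) by linarith)
    (K * K2))
  have e3 := (tendsto_md c).eventually
    (evl (show 2 * (h + ε) + (2 * h - η) < 2 * (2 * (h - ε)) by linarith) (K ^ 2 * K2 ^ 2))
  filter_upwards [e1, e2, e3] with n e1 e2 e3 S hS hSc b
  set m : ℕ := md c n with hm
  have hmn : (2 * m : ℝ) ≤ n + (c + 1) := by exact_mod_cast md_le c n
  have him : ∀ b, ((S.image (kid b)).card : ℝ) ≤ K * Real.exp ((h + ε) * m) := fun b => by
    have h1 : ((S.image (kid b)).card : ℝ) ≤ (GG q C k m).card := by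
      exact_mod_cast Finset.card_le_card (image_GG hc hS b)
    exact h1.trans (hK k le_rfl m)
  have hSl : Real.exp (2 * (h - ε) * m) ≤ K2 * S.card := by
    refine le_trans ?_ (mul_le_mul_of_nonneg_left hSc hK2p.le)
    rw [hK2, ← Real.exp_add]
    apply Real.exp_le_exp.2
    have : (0:ℝ) ≤ c := Nat.cast_nonneg _
    nlinarith [mul_le_mul_of_nonneg_left hmn (show 0 ≤ h - ε by linarith)]
  have hSpos : (0 : ℝ) < S.card := lt_of_lt_of_le (Real.exp_pos _) hSc
  have hSne : S.Nonempty := Finset.card_pos.1 (by exact_mod_cast hSpos)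
  refine ⟨(him b).trans e1, ?_, ?_⟩
  · obtain ⟨u, hu⟩ := exists_fib hA b hSne
    refine ⟨u, ?_⟩
    have hu' : (S.card : ℝ) ≤ (S.image (kid (!b))).card * (fib b S u).card := by
      exact_mod_cast hu
    have h1 : Real.exp (2 * (h - ε) * m) ≤
        K2 * (K * Real.exp ((h + ε) * m) * (fib b S u).card) :=
      hSl.trans (mul_le_mul_of_nonneg_left (hu'.trans
        (mul_le_mul_of_nonneg_right (him (!b)) (Nat.cast_nonneg _))) hK2p.le)
    have h2 : K * K2 * Real.exp ((h + ε) * m) * Real.exp ((h - η) * m) ≤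
        K * K2 * Real.exp ((h + ε) * m) * (fib b S u).card := by
      calc K * K2 * Real.exp ((h + ε) * m) * Real.exp ((h - η) * m)
          = K * K2 * Real.exp ((h - η + (h + ε)) * m) := by
            rw [mul_assoc, ← Real.exp_add]; ring_nf
        _ ≤ Real.exp (2 * (h - ε) * m) := e2
        _ ≤ _ := h1
        _ = _ := by ring
    exact le_of_mul_le_mul_left h2 (by positivity)
  · obtain ⟨v, hv⟩ := exists_fib2 hA b hSne
    refine ⟨v, ?_⟩
    set S1 := S.filter fun w => kid b w ∈ fib b S v with hS1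
    have hv' : (S.card : ℝ) ^ 2 ≤ (S.image (kid b)).card * (S.image (kid (!b))).card * S1.card := by
      exact_mod_cast hv
    have h0 : Real.exp (2 * (2 * (h - ε)) * m) ≤ K2 ^ 2 * (S.card : ℝ) ^ 2 := by
      have h1 : Real.exp (2 * (2 * (h - ε)) * m) = Real.exp (2 * (h - ε) * m) ^ 2 := by
        rw [sq, ← Real.exp_add]; ring_nf
      rw [h1, ← mul_pow]
      exact pow_le_pow_left₀ (Real.exp_pos _).le hSl 2
    have h1 : ((S.image (kid b)).card : ℝ) * (S.image (kid (!b))).card ≤
        (K * Real.exp ((h + ε) * m)) * (K * Real.exp ((h + ε) * m)) :=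
      mul_le_mul (him b) (him (!b)) (Nat.cast_nonneg _) (by positivity)
    have h2 : K ^ 2 * K2 ^ 2 * Real.exp (2 * (h + ε) * m) * Real.exp ((2 * h - η) * m) ≤
        K ^ 2 * K2 ^ 2 * Real.exp (2 * (h + ε) * m) * S1.card := by
      calc K ^ 2 * K2 ^ 2 * Real.exp (2 * (h + ε) * m) * Real.exp ((2 * h - η) * m)
          = K ^ 2 * K2 ^ 2 * Real.exp ((2 * (h + ε) + (2 * h - η)) * m) := by
            rw [mul_assoc, ← Real.exp_add]; ring_nf
        _ ≤ Real.exp (2 * (2 * (h - ε)) * m) := e3
        _ ≤ K2 ^ 2 * (S.card : ℝ) ^ 2 := h0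
        _ ≤ K2 ^ 2 * ((K * Real.exp ((h + ε) * m)) * (K * Real.exp ((h + ε) * m)) * S1.card) :=
            mul_le_mul_of_nonneg_left (hv'.trans (mul_le_mul_of_nonneg_right h1
              (Nat.cast_nonneg _))) (by positivity)
        _ = K ^ 2 * K2 ^ 2 * (Real.exp ((h + ε) * m) * Real.exp ((h + ε) * m)) * S1.card := by
            ring
        _ = _ := by rw [← Real.exp_add]; ring_nf
    exact le_of_mul_le_mul_left h2 (by positivity)

/-- Pigeonhole. -/
lemma exists_class {α : Type*} [DecidableEq α] (S : Finset (Wd q)) (hS : S.Nonempty)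
    (f : Wd q → α) : ∃ a, S.card ≤ (S.image f).card * (S.filter fun w => f w = a).card := by
  by_contra hcon
  push Not at hcon
  have h1 := Finset.card_eq_sum_card_image f S
  have hne : (S.image f).Nonempty := hS.image _
  have h2 : (S.image f).card * S.card < (S.image f).card * S.card := by
    calc (S.image f).card * S.card
        = ∑ a ∈ S.image f, (S.image f).card * (S.filter fun w => f w = a).card := by
          rw [← Finset.mul_sum, ← h1]
      _ < ∑ a ∈ S.image f, S.card := Finset.sum_lt_sum_of_nonempty hne fun a _ => hcon a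
      _ = (S.image f).card * S.card := by rw [Finset.sum_const, smul_eq_mul]
  exact lt_irrefl _ h2

/-- The words of `S` whose children lie in given sets. -/
lemma card_le_mul (hA : AlComb q) (b : Bool) (S : Finset (Wd q)) (U V : Finset (Wd q))
    (hU : ∀ w ∈ S, kid b w ∈ U) (hV : ∀ w ∈ S, kid (!b) w ∈ V) : S.card ≤ U.card * V.card := by
  rw [← Finset.card_product]
  apply Finset.card_le_card_of_injOn (fun w => (kid b w, kid (!b) w))
  · intro w hw
    exact Finset.mem_coe.2 (Finset.mem_product.2 ⟨hU w hw, hV w hw⟩)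
  · intro w _ w' _ h
    exact pair_inj hA b (Prod.ext_iff.1 h).1 (Prod.ext_iff.1 h).2


/-- Near-minimality: the steps of a fibre. -/
lemma near (hA : AlComb q) {C c k n : ℕ} {σ h d1 e e1 : ℝ} (hc : Len q C c)
    (hσ : 0 ≤ σ) (he : 0 ≤ e)
    (hlo : ∀ S ⊆ GG q C k (md c n), Real.exp ((h - d1) * md c n) ≤ (S.card : ℝ) →
      (σ - e1) * md c n ≤ ((steps S).card : ℝ))
    {S : Finset (Wd q)} (hS : S ⊆ GG q C (k + 1) n)
    (hs : ((steps S).card : ℝ) ≤ (σ + e) * n) (b : Bool) {u : Wd q}
    (hu : Real.exp ((h - d1) * md c n) ≤ ((fib (!b) S u).card : ℝ)) (v : Wd q) :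
    ((steps (fib b S v)).card : ℝ) ≤ (σ + (2 * e + e1)) * md c n := by
  have h1 := two' hA b S u v
  have h2 := hlo _ (fib_GG hc hS (!b) u) hu
  have h3 : ((steps (fib b S v)).card : ℝ) + (steps (fib (!b) S u)).card ≤ (steps S).card := by
    exact_mod_cast h1
  have h4 : (n : ℝ) ≤ 2 * md c n := by exact_mod_cast le_md c n
  have h5 : (σ + e) * n ≤ (σ + e) * (2 * md c n) :=
    mul_le_mul_of_nonneg_left h4 (by linarith)
  nlinarith

lemma mono_child (hA : AlComb q) {C c : ℕ} {h σ : ℝ} (hc : Len q C c) (hh : Rate q C h)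
    (hσ : Sig q C h σ) {α : Type*} (f : Wd q → α)
    (hf : Mono q C h σ fun w w' => f w = f w') (b : Bool) :
    Mono q C h σ fun w w' => f (kid b w) = f (kid b w') := by
  classical
  intro d' hd'
  have hhp := hh.pos
  set D : ℝ := min d' h with hD
  have hD0 : 0 < D := lt_min hd' hhp
  have hD1 : D ≤ d' := min_le_left _ _
  have hD2 : D ≤ h := min_le_right _ _
  obtain ⟨d3, e3, k3, hd3, he3, H3⟩ := hf D hD0
  obtain ⟨d1, k1, n1, hd1, H1⟩ := hσ.lo (e3 / 3) (by linarith)
  set η : ℝ := min (D / 4) (min (d3 / 4) d1) with hη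
  have hη0 : 0 < η := lt_min (by linarith) (lt_min (by linarith) hd1)
  have hη1 : η ≤ D / 4 := min_le_left _ _
  have hη2 : η ≤ d3 / 4 := (min_le_right _ _).trans (min_le_left _ _)
  have hη3 : η ≤ d1 := (min_le_right _ _).trans (min_le_right _ _)
  obtain ⟨d0, k0, hd0, H0⟩ := setup hA hc hh hη0
  refine ⟨d0, e3 / 3, max k0 (max k1 k3) + 1, hd0, by linarith, ?_⟩
  have E1 := (tendsto_md c).eventually (evl (show h - d3 + (h + η) < 2 * h - η by linarith) 2)
  have E2 := (tendsto_md c).eventually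
    (evl (show η + D + (2 * (h - D)) < 2 * h - η by linarith) 2)
  filter_upwards [H0, (tendsto_md c).eventually H3, (tendsto_md c).eventually_ge_atTop n1, E1, E2]
    with n H0 H3 hn1 E1 E2 S hS hSc hSs
  have hS0 : S ⊆ GG q C (k0 + 1) n := hS.trans (GG_mono (by omega) le_rfl)
  have hS1 : S ⊆ GG q C (k1 + 1) n := hS.trans (GG_mono (by omega) le_rfl)
  have hS3 : S ⊆ GG q C (k3 + 1) n := hS.trans (GG_mono (by omega) le_rfl)
  obtain ⟨hX, -, v, hv⟩ := H0 S hS0 hSc b
  obtain ⟨hY, ⟨u, hu⟩, -⟩ := H0 S hS0 hSc (!b)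
  set m : ℕ := md c n with hm
  have hu' : Real.exp ((h - d1) * m) ≤ ((fib (!b) S u).card : ℝ) := (exp_anti hη3 m).trans hu
  have hF := near hA hc hσ.nn (show (0:ℝ) ≤ e3 / 3 by linarith)
    (fun S hS hc => H1 m hn1 S hS hc) hS1 hSs b hu' v
  have hF' : ((steps (fib b S v)).card : ℝ) ≤ (σ + e3) * m := by
    refine hF.trans (le_of_eq ?_)
    rw [← hm]; ring
  set F := fib b S v with hFdef
  -- the elements in small classes
  set U := F.filter fun x => ((F.filter fun y => f y = f x).card : ℝ) < Real.exp ((h - D) * m)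
    with hU
  have hUs : (U.card : ℝ) < Real.exp ((h - d3) * m) := by
    by_contra hcon
    push Not at hcon
    have hUF : U ⊆ F := Finset.filter_subset _ _
    obtain ⟨S'', hS'', hc'', hr''⟩ := H3 U (hUF.trans (fib_GG hc hS3 b v)) hcon
      ((by exact_mod_cast Finset.card_le_card (steps_mono hUF) :
        ((steps U).card : ℝ) ≤ (steps F).card).trans hF')
    have hpos : (0 : ℝ) < S''.card := lt_of_lt_of_le (Real.exp_pos _) hc''
    obtain ⟨x, hx⟩ : S''.Nonempty := Finset.card_pos.1 (by exact_mod_cast hpos)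
    have h1 := (mem_filter.1 (hS'' hx)).2
    have h2 : S'' ⊆ F.filter fun y => f y = f x := fun y hy =>
      mem_filter.2 ⟨hUF (hS'' hy), hr'' y hy x hx⟩
    have h3 : (S''.card : ℝ) ≤ (F.filter fun y => f y = f x).card := by
      exact_mod_cast Finset.card_le_card h2
    linarith
  set S1 := S.filter fun w => kid b w ∈ F with hS1def
  set S2 := S1.filter fun w => kid b w ∉ U with hS2def
  have hsplit : (S1.filter fun w => kid b w ∈ U).card + S2.card = S1.card :=
    Finset.card_filter_add_card_filter_not _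
  have hsmall : ((S1.filter fun w => kid b w ∈ U).card : ℝ) ≤
      Real.exp ((h - d3) * m) * Real.exp ((h + η) * m) := by
    have h1 : (S1.filter fun w => kid b w ∈ U).card ≤ U.card * (S.image (kid (!b))).card := by
      apply card_le_mul hA b
      · intro w hw
        exact (mem_filter.1 hw).2
      · intro w hw
        exact Finset.mem_image_of_mem _ (mem_filter.1 (mem_filter.1 hw).1).1
    have h2 : ((S1.filter fun w => kid b w ∈ U).card : ℝ) ≤ U.card * (S.image (kid (!b))).card := by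
      exact_mod_cast h1
    exact h2.trans (mul_le_mul hUs.le hY (Nat.cast_nonneg _) (Real.exp_pos _).le)
  have hbig : Real.exp ((2 * h - η) * m) ≤ 2 * S2.card := by
    have h1 : ((S1.filter fun w => kid b w ∈ U).card : ℝ) + S2.card = S1.card := by
      exact_mod_cast hsplit
    rw [← Real.exp_add, ← add_mul] at hsmall
    linarith
  have hS2ne : S2.Nonempty := by
    apply Finset.card_pos.1
    have : (0 : ℝ) < S2.card := by linarith [Real.exp_pos ((2 * h - η) * m)]
    exact_mod_cast this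
  -- the number of classes
  obtain ⟨a, ha⟩ := exists_class S2 hS2ne fun w => f (kid b w)
  have hcl : ((S2.image fun w => f (kid b w)).card : ℝ) ≤ Real.exp ((η + D) * m) := by
    have h1 : ((S2.image fun w => f (kid b w)).card : ℝ) * Real.exp ((h - D) * m) ≤
        (S.image (kid b)).card := by
      have h2 : ∀ a ∈ S2.image fun w => f (kid b w), Real.exp ((h - D) * m) ≤
          ((F.filter fun y => f y = a).card : ℝ) := by
        intro a ha
        obtain ⟨w, hw, rfl⟩ := mem_image.1 ha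
        have h3 := (mem_filter.1 hw).2
        have h4 := (mem_filter.1 (mem_filter.1 hw).1).2
        by_contra h5
        push Not at h5
        exact h3 (mem_filter.2 ⟨h4, h5⟩)
      have h6 : ∑ a ∈ S2.image (fun w => f (kid b w)), (F.filter fun y => f y = a).card ≤ F.card := by
        rw [← Finset.card_biUnion]
        · exact Finset.card_le_card (Finset.biUnion_subset.2 fun a _ => Finset.filter_subset _ _)
        · intro a _ a' _ haa'
          apply Finset.disjoint_filter.2
          intro x _ h7 h8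
          exact haa' (h7.symm.trans h8)
      have h7 : F.card ≤ (S.image (kid b)).card := by
        apply Finset.card_le_card
        rw [hFdef]
        unfold fib
        exact Finset.image_subset_image (Finset.filter_subset _ _)
      calc ((S2.image fun w => f (kid b w)).card : ℝ) * Real.exp ((h - D) * m)
          = ∑ a ∈ S2.image (fun w => f (kid b w)), Real.exp ((h - D) * m) := by
            rw [Finset.sum_const, nsmul_eq_mul]
        _ ≤ ∑ a ∈ S2.image (fun w => f (kid b w)), ((F.filter fun y => f y = a).card : ℝ) :=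
            Finset.sum_le_sum h2
        _ = ((∑ a ∈ S2.image (fun w => f (kid b w)), (F.filter fun y => f y = a).card : ℕ) : ℝ) := by
            push_cast; rfl
        _ ≤ (F.card : ℝ) := by exact_mod_cast h6
        _ ≤ _ := by exact_mod_cast h7
    have h3 : ((S2.image fun w => f (kid b w)).card : ℝ) * Real.exp ((h - D) * m) ≤
        Real.exp ((η + D) * m) * Real.exp ((h - D) * m) := by
      rw [← Real.exp_add, ← add_mul, show η + D + (h - D) = h + η by ring]
      exact h1.trans hX
    exact le_of_mul_le_mul_right h3 (Real.exp_pos _)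
  refine ⟨S2.filter fun w => f (kid b w) = a, (Finset.filter_subset _ _).trans
    ((Finset.filter_subset _ _).trans (Finset.filter_subset _ _)), ?_, ?_⟩
  · refine (exp_anti hD1 n).trans ((exp_md (by linarith) c n).trans ?_)
    rw [← hm]
    have h1 : (S2.card : ℝ) ≤ (S2.image fun w => f (kid b w)).card *
        (S2.filter fun w => f (kid b w) = a).card := by exact_mod_cast ha
    have h2 : Real.exp ((η + D) * m) * Real.exp (2 * (h - D) * m) ≤
        Real.exp ((η + D) * m) * (S2.filter fun w => f (kid b w) = a).card := by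
      have h3 := mul_le_mul_of_nonneg_right hcl
        (Nat.cast_nonneg (α := ℝ) (S2.filter fun w => f (kid b w) = a).card)
      rw [← Real.exp_add, ← add_mul]
      linarith
    exact le_of_mul_le_mul_left h2 (Real.exp_pos _)
  · intro w hw w' hw'
    exact (mem_filter.1 hw).2.trans (mem_filter.1 hw').2.symm

lemma mono_trans (hA : AlComb q) {C c : ℕ} {h σ : ℝ} (hc : Len q C c) (hh : Rate q C h)
    (hσ : Sig q C h σ) (b : Bool) :
    Mono q C h σ fun w w' => rd (kid (!b) w) 0 = rd (kid (!b) w') 0 := by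
  classical
  intro d' hd'
  have hhp := hh.pos
  set D : ℝ := min d' h with hD
  have hD0 : 0 < D := lt_min hd' hhp
  have hD1 : D ≤ d' := min_le_left _ _
  have hD2 : D ≤ h := min_le_right _ _
  obtain ⟨δ, K, hδ, HT⟩ := hA.tra b C (D / 4) (by linarith)
  obtain ⟨d1, k1, n1, hd1, H1⟩ := hσ.lo (δ / 4) (by linarith)
  set η : ℝ := min (D / 4) (d1 / 4) with hη
  have hη0 : 0 < η := lt_min (by linarith) (by linarith)
  have hη1 : η ≤ D / 4 := min_le_left _ _
  have hη2 : η ≤ d1 / 4 := min_le_right _ _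
  obtain ⟨d0, k0, hd0, H0⟩ := setup hA hc hh hη0
  refine ⟨d0, δ / 4, max k0 k1 + 1, hd0, by linarith, ?_⟩
  have E1 := (tendsto_md c).eventually (evl (show h - d1 + (h + η) < 2 * h - η by linarith) 2)
  have E2 := (tendsto_md c).eventually
    (evl (show 2 * (D / 4) + 2 * (h - D) < 2 * h - η by linarith) (2 * max K 1))
  have E3 : ∀ᶠ n : ℕ in atTop, (δ / 2 * (c + 1) + 1) ≤ δ / 2 * (n : ℝ) :=
    (tendsto_natCast_atTop_atTop.const_mul_atTop (by linarith)).eventually_ge_atTop _
  filter_upwards [H0, (tendsto_md c).eventually_ge_atTop n1, E1, E2, E3]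
    with n H0 hn1 E1 E2 E3 S hS hSc hSs
  have hS0 : S ⊆ GG q C (k0 + 1) n := hS.trans (GG_mono (by omega) le_rfl)
  have hS1 : S ⊆ GG q C (k1 + 1) n := hS.trans (GG_mono (by omega) le_rfl)
  obtain ⟨hX, -, v, hv⟩ := H0 S hS0 hSc b
  obtain ⟨hY, ⟨u, hu⟩, -⟩ := H0 S hS0 hSc (!b)
  set m : ℕ := md c n with hm
  have hmn : (2 * m : ℝ) ≤ n + (c + 1) := by exact_mod_cast md_le c n
  have hnm : (n : ℝ) ≤ 2 * m := by exact_mod_cast le_md c n
  have hm0 : (0 : ℝ) ≤ m := Nat.cast_nonneg _
  have hu' : Real.exp ((h - d1) * m) ≤ ((fib (!b) S u).card : ℝ) :=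
    (exp_anti (by linarith) m).trans hu
  set Y := S.image (kid (!b)) with hYdef
  set T := Y.filter fun y => Real.exp ((h - d1) * m) ≤ ((fib b S y ∩ fib b S v).card : ℝ) with hT
  set t : ℕ := ⌈δ * m⌉₊ with ht
  have htn : (t : ℝ) ≤ δ * n := by
    have h1 : (t : ℝ) < δ * m + 1 := Nat.ceil_lt_add_one (by positivity)
    nlinarith
  have hTR := HT n t S T v u (fun w hw => by
      have := mem_GG.1 (hS hw)
      exact ⟨this.1, good_mono (by omega) this.2⟩) (fun y hy => by
    have h1 := (mem_filter.1 hy).2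
    have hpos : (0 : ℝ) < (fib b S y ∩ fib b S v).card := lt_of_lt_of_le (Real.exp_pos _) h1
    refine ⟨Finset.card_pos.1 (by exact_mod_cast hpos), ?_⟩
    have h2 := H1 m hn1 _ ((Finset.inter_subset_left).trans (fib_GG hc hS1 b y)) h1
    have h3 := H1 m hn1 _ (fib_GG hc hS1 (!b) u) hu'
    have h4 : δ * m ≤ t := Nat.le_ceil _
    have h5 : ((steps S).card : ℝ) ≤ ((steps (fib b S y ∩ fib b S v)).card +
        (steps (fib (!b) S u)).card + t : ℕ) := by
      push_cast
      have h6 : (σ + δ / 4) * n ≤ (σ + δ / 4) * (2 * m) :=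
        mul_le_mul_of_nonneg_left hnm (by linarith [hσ.nn])
      nlinarith
    exact_mod_cast h5) htn
  set S1 := S.filter fun w => kid b w ∈ fib b S v with hS1def
  set S2 := S1.filter fun w => kid (!b) w ∈ T with hS2def
  have hsplit : S2.card + (S1.filter fun w => ¬ kid (!b) w ∈ T).card = S1.card :=
    Finset.card_filter_add_card_filter_not _
  have hsmall : ((S1.filter fun w => ¬ kid (!b) w ∈ T).card : ℝ) ≤
      Real.exp ((h - d1) * m) * Real.exp ((h + η) * m) := by
    have h1 : (S1.filter fun w => ¬ kid (!b) w ∈ T).card =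
        ∑ y ∈ Y, ((S1.filter fun w => ¬ kid (!b) w ∈ T).filter fun w => kid (!b) w = y).card :=
      Finset.card_eq_sum_card_fiberwise fun w hw =>
        Finset.mem_coe.2 (Finset.mem_image_of_mem _
          (mem_filter.1 (mem_filter.1 (Finset.mem_coe.1 hw)).1).1)
    have h2 : ∀ y ∈ Y, (((S1.filter fun w => ¬ kid (!b) w ∈ T).filter
        fun w => kid (!b) w = y).card : ℝ) ≤ Real.exp ((h - d1) * m) := by
      intro y hy
      by_cases hyT : y ∈ T
      · have : ((S1.filter fun w => ¬ kid (!b) w ∈ T).filter fun w => kid (!b) w = y) = ∅ := by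
          apply Finset.filter_eq_empty_iff.2
          intro w hw h3
          exact (mem_filter.1 hw).2 (h3 ▸ hyT)
        rw [this]; simp [(Real.exp_pos _).le]
      · have h3 : ((fib b S y ∩ fib b S v).card : ℝ) < Real.exp ((h - d1) * m) := by
          by_contra h4
          push Not at h4
          exact hyT (mem_filter.2 ⟨hy, h4⟩)
        refine le_trans ?_ h3.le
        have h5 : ((S1.filter fun w => ¬ kid (!b) w ∈ T).filter fun w => kid (!b) w = y).card ≤
            (fib b S y ∩ fib b S v).card := by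
          apply Finset.card_le_card_of_injOn (kid b)
          · intro w hw
            have h6 := mem_filter.1 (Finset.mem_coe.1 hw)
            have h7 := mem_filter.1 (mem_filter.1 h6.1).1
            refine Finset.mem_coe.2 (Finset.mem_inter.2 ⟨?_, h7.2⟩)
            exact Finset.mem_image_of_mem _ (mem_filter.2 ⟨h7.1, h6.2⟩)
          · intro w hw w' hw' h8
            exact pair_inj hA b h8 ((mem_filter.1 (Finset.mem_coe.1 hw)).2.trans
              (mem_filter.1 (Finset.mem_coe.1 hw')).2.symm)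
        exact_mod_cast h5
    rw [h1]
    push_cast
    refine (Finset.sum_le_sum h2).trans ?_
    rw [Finset.sum_const, nsmul_eq_mul, mul_comm]
    exact mul_le_mul_of_nonneg_left hY (Real.exp_pos _).le
  have hbig : Real.exp ((2 * h - η) * m) ≤ 2 * S2.card := by
    have h1 : (S2.card : ℝ) + (S1.filter fun w => ¬ kid (!b) w ∈ T).card = S1.card := by
      exact_mod_cast hsplit
    rw [← Real.exp_add, ← add_mul] at hsmall
    linarith
  have hS2ne : S2.Nonempty := by
    apply Finset.card_pos.1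
    have : (0 : ℝ) < S2.card := by linarith [Real.exp_pos ((2 * h - η) * m)]
    exact_mod_cast this
  obtain ⟨a, ha⟩ := exists_class S2 hS2ne fun w => rd (kid (!b) w) 0
  have hcl : ((S2.image fun w => rd (kid (!b) w) 0).card : ℝ) ≤
      max K 1 * Real.exp (2 * (D / 4) * m) := by
    have h1 : S2.image (fun w => rd (kid (!b) w) 0) ⊆ T.image fun y => rd y 0 := by
      intro x hx
      obtain ⟨w, hw, rfl⟩ := mem_image.1 hx
      exact mem_image.2 ⟨kid (!b) w, (mem_filter.1 hw).2, rfl⟩
    have h2 : ((S2.image fun w => rd (kid (!b) w) 0).card : ℝ) ≤ (T.image fun y => rd y 0).card := by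
      exact_mod_cast Finset.card_le_card h1
    refine h2.trans (hTR.trans ?_)
    exact mul_le_mul (le_max_left _ _) (exp_md (by linarith) c n) (Real.exp_pos _).le
      (le_trans zero_le_one (le_max_right _ _))
  refine ⟨S2.filter fun w => rd (kid (!b) w) 0 = a, (Finset.filter_subset _ _).trans
    ((Finset.filter_subset _ _).trans (Finset.filter_subset _ _)), ?_, ?_⟩
  · refine (exp_anti hD1 n).trans ((exp_md (by linarith) c n).trans ?_)
    rw [← hm]
    have h1 : (S2.card : ℝ) ≤ (S2.image fun w => rd (kid (!b) w) 0).card *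
        (S2.filter fun w => rd (kid (!b) w) 0 = a).card := by exact_mod_cast ha
    have hM : (0 : ℝ) < max K 1 := lt_of_lt_of_le one_pos (le_max_right _ _)
    have h2 : max K 1 * Real.exp (2 * (D / 4) * m) * Real.exp (2 * (h - D) * m) ≤
        max K 1 * Real.exp (2 * (D / 4) * m) *
          (S2.filter fun w => rd (kid (!b) w) 0 = a).card := by
      have h3 := mul_le_mul_of_nonneg_right hcl
        (Nat.cast_nonneg (α := ℝ) (S2.filter fun w => rd (kid (!b) w) 0 = a).card)
      rw [mul_assoc, ← Real.exp_add, ← add_mul]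
      linarith
    exact le_of_mul_le_mul_left h2 (by positivity)
  · intro w hw w' hw'
    exact (mem_filter.1 hw).2.trans (mem_filter.1 hw').2.symm

/-! ### Conclusion -/

lemma mono_rd (hA : AlComb q) {C c : ℕ} {h σ : ℝ} (hc : Len q C c) (hh : Rate q C h)
    (hσ : Sig q C h σ) (j : ℕ) : Mono q C h σ fun w w' => rd w (1 + j : ZMod q) = rd w' (1 + j) := by
  have hT : ∀ b, Mono q C h σ fun w w' => rd (kid b w) 0 = rd (kid b w') 0 := by
    intro b
    have := mono_trans hA hc hh hσ (!b)
    simpa using this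
  induction j with
  | zero =>
    refine ((hT true).and (hT false)).imp fun w w' hw => ?_
    have h1 : ∀ b, rd (kid b w) 0 = rd (kid b w') 0 := by
      intro b; cases b
      · exact hw.2
      · exact hw.1
    have := hA.par w w' 0 h1 h1
    simpa using this
  | succ j ih =>
    have h1 : ∀ b, Mono q C h σ fun w w' => rd (kid b w) (1 + j : ZMod q) = rd (kid b w') (1 + j) :=
      fun b => mono_child hA hc hh hσ (fun w => rd w (1 + j : ZMod q)) ih b
    refine (((hT true).and (hT false)).and ((h1 true).and (h1 false))).imp fun w w' hw => ?_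
    obtain ⟨⟨h2, h3⟩, h4, h5⟩ := hw
    have h6 := hA.par w w' (1 + j) (by intro b; cases b <;> assumption)
      (by intro b; cases b <;> assumption)
    have h7 : (1 + ((j + 1 : ℕ) : ZMod q)) = 1 + j + 1 := by push_cast; ring
    rw [h7]; exact h6

lemma mono_all (hA : AlComb q) {C c : ℕ} {h σ : ℝ} (hc : Len q C c) (hh : Rate q C h)
    (hσ : Sig q C h σ) : Mono q C h σ fun w w' => w = w' := by
  have h1 : ∀ a : ZMod q, Mono q C h σ fun w w' => rd w a = rd w' a := by
    intro a
    have := mono_rd hA hc hh hσ (a - 1).val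
    have h2 : (1 + ((a - 1).val : ZMod q)) = a := by rw [ZMod.natCast_zmod_val]; ring
    rw [h2] at this
    exact this
  have h2 : ∀ s : Finset (ZMod q), Mono q C h σ fun w w' => ∀ a ∈ s, rd w a = rd w' a := by
    intro s
    induction s using Finset.induction_on with
    | empty => exact mono_true.imp fun w w' _ a ha => absurd ha (Finset.notMem_empty a)
    | insert a s _ ih =>
      refine ((h1 a).and ih).imp fun w w' hw a' ha' => ?_
      rcases Finset.mem_insert.1 ha' with rfl | h
      · exact hw.1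
      · exact hw.2 a' h
  exact (h2 Finset.univ).imp fun w w' hw => hA.rcv w w' fun a => hw a (Finset.mem_univ a)

/-- The alpha lemma from its combinatorial part. -/
theorem alphaLemma_of_comb (hA : AlComb q) : AlphaLemma q := by
  intro C ε hε
  by_contra hcon
  push Not at hcon
  have hno : ∀ (k : ℕ) (K : ℝ), ∃ n : ℕ, K * Real.exp (ε * n) < (GG q C k n).card := by
    intro k K
    obtain ⟨n, hn⟩ := hcon k K
    refine ⟨n, ?_⟩
    rw [← ncard_GG]
    exact hn
  obtain ⟨h, hh⟩ := exists_rate hε hno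
  obtain ⟨σ, hσ⟩ := exists_sig hA hh
  obtain ⟨c, hc⟩ := hA.len C
  have hhp := hh.pos
  obtain ⟨d, e, k, hd, he, H⟩ := mono_all hA hc hh hσ (h / 2) (by linarith)
  obtain ⟨n₀, H⟩ := eventually_atTop.1 H
  obtain ⟨n, hn, S, hS, hS1, hS2⟩ := hσ.up e he d hd k (max n₀ 1)
  obtain ⟨S', -, hc', hr'⟩ := H n ((le_max_left _ _).trans hn) S hS hS1 hS2
  have h1 : S'.card ≤ 1 := Finset.card_le_one.2 fun a ha b hb => hr' a ha b hb
  have h2 : (S'.card : ℝ) ≤ 1 := by exact_mod_cast h1
  have h3 : 1 < Real.exp ((h - h / 2) * n) := by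
    apply Real.one_lt_exp_iff.2
    have : (1 : ℝ) ≤ n := by exact_mod_cast (le_max_right _ _).trans hn
    nlinarith
  linarith


end R4.Al.helper94
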